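import Pool.Agent.L5helper43.Vis.MonoVis

/-!
# The polygons of the lower bound

The vertices are, from the left to the right, a point `w` far away, the points `c_0, t_0, c_1, t_1,
..., c_k` (`c_i` on a parabola, `t_i` the tip of a spike which sees through its opening the points
`q_j` with `j > s i` only) and the points `q_0, ..., q_M` on a steep concave arc.
-/

namespace Pool.Agent.L5helper43.Vis

open Set Vis124 Pool.Agent.H595K

/-- The factor of the steep arc. -/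
noncomputable def bB (k : ℕ) : ℝ := (k : ℝ) ^ 2 + 1

/-- The height. -/
noncomputable def hH (k M : ℕ) : ℝ := bB k * (M : ℝ) ^ 2

/-- Slope from `c_(i + 1)` to `q_j` (up to the sign). -/
noncomputable def sS (k i j : ℕ) : ℝ :=
  (((i : ℝ) + 1) ^ 2 + bB k * (j : ℝ) ^ 2) / ((k : ℝ) - i + j)

/-- Slope of the right side of the spike `i`. -/
noncomputable def mS (k : ℕ) (s : ℕ → ℕ) (i : ℕ) : ℝ := (sS k i (s i) + sS k i (s i + 1)) / 2

/-- The distance of the point on the left. -/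
noncomputable def wW (k M : ℕ) : ℝ := 4 * (hH k M + (k : ℝ) ^ 2 + 1)

/-- First coordinates. -/
noncomputable def vX (k M : ℕ) (a : ℕ) : ℝ :=
  if a = 0 then -wW k M else if a ≤ 2 * k + 1 then ((a : ℝ) - 1) / 2 else (a : ℝ) - k - 1

/-- Second coordinates. -/
noncomputable def vY (k M : ℕ) (s : ℕ → ℕ) (a : ℕ) : ℝ :=
  if a = 0 then -hH k M else if a ≤ 2 * k + 1 then
    (if a % 2 = 1 then (((a : ℝ) - 1) / 2) ^ 2
      else ((a : ℝ) / 2) ^ 2 + mS k s (a / 2 - 1) / 2)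
  else -bB k * ((a : ℝ) - 2 * k - 2) ^ 2

variable {k M : ℕ} {s : ℕ → ℕ}

theorem bB_pos (k : ℕ) : 0 < bB k := by unfold bB; positivity

theorem vX_w : vX k M 0 = -wW k M := by simp [vX]

theorem vY_w : vY k M s 0 = -hH k M := by simp [vY]

theorem vX_c {i : ℕ} (hi : i ≤ k) : vX k M (2 * i + 1) = i := by
  rw [vX, if_neg (by omega), if_pos (by omega)]
  push_cast
  ring

theorem vY_c {i : ℕ} (hi : i ≤ k) : vY k M s (2 * i + 1) = (i : ℝ) ^ 2 := by
  rw [vY, if_neg (by omega), if_pos (by omega), if_pos (by omega)]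
  push_cast
  ring

theorem vX_t {i : ℕ} (hi : i < k) : vX k M (2 * i + 2) = (i : ℝ) + 1 / 2 := by
  rw [vX, if_neg (by omega), if_pos (by omega)]
  push_cast
  ring

theorem vY_t {i : ℕ} (hi : i < k) :
    vY k M s (2 * i + 2) = ((i : ℝ) + 1) ^ 2 + mS k s i / 2 := by
  rw [vY, if_neg (by omega), if_pos (by omega), if_neg (by omega)]
  have : (2 * i + 2) / 2 - 1 = i := by omega
  rw [this]
  push_cast
  ring

theorem vX_q (j : ℕ) : vX k M (2 * k + 2 + j) = (k : ℝ) + 1 + j := by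
  rw [vX, if_neg (by omega), if_neg (by omega)]
  push_cast
  ring

theorem vY_q (j : ℕ) : vY k M s (2 * k + 2 + j) = -bB k * (j : ℝ) ^ 2 := by
  rw [vY, if_neg (by omega), if_neg (by omega)]
  push_cast
  ring

theorem sS_lt {i l j : ℕ} (hi : i < k) (hlj : l < j) : sS k i l < sS k i j := by
  have hD : (1 : ℝ) ≤ (k : ℝ) - i := by
    have : (i : ℝ) + 1 ≤ k := by exact_mod_cast hi
    linarith
  have hl : (0 : ℝ) ≤ l := Nat.cast_nonneg l
  have hj : (l : ℝ) + 1 ≤ j := by exact_mod_cast hlj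
  have hi0 : (0 : ℝ) ≤ i := Nat.cast_nonneg i
  unfold sS
  rw [div_lt_div_iff₀ (by linarith) (by linarith)]
  have ha : ((i : ℝ) + 1) ^ 2 < bB k := by
    unfold bB
    nlinarith
  have hB := bB_pos k
  have e : (((i : ℝ) + 1) ^ 2 + bB k * (j : ℝ) ^ 2) * ((k : ℝ) - i + l) -
      (((i : ℝ) + 1) ^ 2 + bB k * (l : ℝ) ^ 2) * ((k : ℝ) - i + j) =
      ((j : ℝ) - l) * (bB k * (((k : ℝ) - i) * (j + l) + j * l) - ((i : ℝ) + 1) ^ 2) := by ring
  have h1 : (1 : ℝ) ≤ ((k : ℝ) - i) * (j + l) + j * l := by nlinarith [mul_nonneg hl hl]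
  have h2 : 0 < bB k * (((k : ℝ) - i) * (j + l) + j * l) - ((i : ℝ) + 1) ^ 2 := by nlinarith
  have h3 : 0 < ((j : ℝ) - l) * (bB k * (((k : ℝ) - i) * (j + l) + j * l) -
      ((i : ℝ) + 1) ^ 2) := mul_pos (by linarith) h2
  linarith

theorem sS_pos {i j : ℕ} (hi : i < k) : 0 < sS k i j := by
  have hD : (1 : ℝ) ≤ (k : ℝ) - i := by
    have : (i : ℝ) + 1 ≤ k := by exact_mod_cast hi
    linarith
  have hj : (0 : ℝ) ≤ j := Nat.cast_nonneg j
  have hi0 : (0 : ℝ) ≤ i := Nat.cast_nonneg i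
  unfold sS
  have hB := bB_pos k
  positivity

/-- `m_i` is positive. -/
theorem mS_pos {i : ℕ} (hi : i < k) : 0 < mS k s i := by
  unfold mS
  have h1 := sS_pos (k := k) (i := i) (j := s i) hi
  have h2 := sS_pos (k := k) (i := i) (j := s i + 1) hi
  linarith

theorem sS_le {i j l : ℕ} (hi : i < k) (h : l ≤ j) : sS k i l ≤ sS k i j := by
  rcases eq_or_lt_of_le h with rfl | h
  · exact le_refl _
  · exact (sS_lt hi h).le

theorem mS_gt {i j : ℕ} (hi : i < k) (hj : j ≤ s i) :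
    ((i : ℝ) + 1) ^ 2 + bB k * (j : ℝ) ^ 2 < mS k s i * ((k : ℝ) - i + j) := by
  have hD : (1 : ℝ) ≤ (k : ℝ) - i := by
    have : (i : ℝ) + 1 ≤ k := by exact_mod_cast hi
    linarith
  have hj0 : (0 : ℝ) ≤ j := Nat.cast_nonneg j
  have h1 := sS_le (k := k) (i := i) hi hj
  have h2 := sS_lt (k := k) (i := i) hi (Nat.lt_succ_self (s i))
  have h3 : sS k i j < mS k s i := by unfold mS; linarith
  rwa [sS, div_lt_iff₀ (by linarith)] at h3

theorem mS_lt {i j : ℕ} (hi : i < k) (hj : s i + 1 ≤ j) :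
    mS k s i * ((k : ℝ) - i + j) < ((i : ℝ) + 1) ^ 2 + bB k * (j : ℝ) ^ 2 := by
  have hD : (1 : ℝ) ≤ (k : ℝ) - i := by
    have : (i : ℝ) + 1 ≤ k := by exact_mod_cast hi
    linarith
  have hj0 : (0 : ℝ) ≤ j := Nat.cast_nonneg j
  have h1 := sS_le (k := k) (i := i) hi hj
  have h2 := sS_lt (k := k) (i := i) hi (Nat.lt_succ_self (s i))
  have h3 : mS k s i < sS k i j := by unfold mS; linarith
  rwa [sS, lt_div_iff₀ (by linarith)] at h3

/-- `m_i < B j` if `t_i` sees `q_j`. -/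
theorem mS_lt' {i j : ℕ} (hi : i < k) (hj : s i + 1 ≤ j) : mS k s i < bB k * j := by
  have hD : (1 : ℝ) ≤ (k : ℝ) - i := by
    have : (i : ℝ) + 1 ≤ k := by exact_mod_cast hi
    linarith
  have hj1 : (1 : ℝ) ≤ j := by exact_mod_cast (by omega : 1 ≤ j)
  have hi0 : (0 : ℝ) ≤ i := Nat.cast_nonneg i
  have h1 := mS_lt (s := s) hi hj
  have hm := mS_pos (s := s) hi
  have ha : ((i : ℝ) + 1) ^ 2 < bB k := by
    unfold bB
    nlinarith
  have hB := bB_pos k
  have h2 : mS k s i * (1 + j) < bB k * j * (1 + j) := by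
    have h3 : mS k s i * (1 + j) ≤ mS k s i * ((k : ℝ) - i + j) :=
      mul_le_mul_of_nonneg_left (by linarith) hm.le
    nlinarith [mul_le_mul_of_nonneg_left hj1 hB.le]
  exact lt_of_mul_lt_mul_right h2 (by linarith)

theorem hH_nonneg : 0 ≤ hH k M := by
  have := bB_pos k
  unfold hH
  positivity

theorem mS_le_hH {i : ℕ} (hi : i < k) (hs : s i < M) : mS k s i ≤ hH k M := by
  have h1 := mS_lt' (s := s) hi (show s i + 1 ≤ M from hs)
  have hM : (1 : ℝ) ≤ M := by exact_mod_cast (by omega : 1 ≤ M)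
  have hB := bB_pos k
  unfold hH
  nlinarith [mul_le_mul_of_nonneg_left hM (mul_nonneg hB.le (by linarith : (0 : ℝ) ≤ M))]

/-- The four kinds of vertices. -/
theorem idx_cases {a : ℕ} (ha : a ≤ 2 * k + 2 + M) :
    a = 0 ∨ (∃ i, i ≤ k ∧ a = 2 * i + 1) ∨ (∃ i, i < k ∧ a = 2 * i + 2) ∨
      (∃ j, j ≤ M ∧ a = 2 * k + 2 + j) := by
  rcases Nat.eq_zero_or_pos a with h | h
  · exact Or.inl h
  · rcases Nat.lt_or_ge (2 * k + 1) a with h1 | h1
    · exact Or.inr (Or.inr (Or.inr ⟨a - (2 * k + 2), by omega, by omega⟩))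
    · rcases Nat.mod_two_eq_zero_or_one a with h2 | h2
      · exact Or.inr (Or.inr (Or.inl ⟨a / 2 - 1, by omega, by omega⟩))
      · exact Or.inr (Or.inl ⟨a / 2, by omega, by omega⟩)

theorem monoPoly (hs : ∀ i, i < k → s i < M) (hM : 1 ≤ M) :
    MonoPoly (vX k M) (vY k M s) (2 * k + 2 + M) := by
  have hH0 := hH_nonneg (k := k) (M := M)
  have hM1 : (1 : ℝ) ≤ M := by exact_mod_cast hM
  have hB := bB_pos k
  refine ⟨by omega, ?_, ?_, ?_⟩
  · intro a ha
    rcases idx_cases (k := k) (M := M) ha.le with rfl | ⟨i, hi, rfl⟩ | ⟨i, hi, rfl⟩ | ⟨j, hj, rfl⟩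
    · have h1 : vX k M (0 + 1) = 0 := by
        have := vX_c (k := k) (M := M) (i := 0) (Nat.zero_le _)
        simpa using this
      rw [h1, vX_w]
      have : 0 < wW k M := by unfold wW; positivity
      linarith
    · rw [vX_c hi]
      rcases eq_or_lt_of_le hi with rfl | hi
      · have := vX_q (k := i) (M := M) 0
        rw [show 2 * i + 1 + 1 = 2 * i + 2 + 0 by ring, this]
        simp
      · rw [vX_t hi]
        linarith
    · rw [vX_t hi, show 2 * i + 2 + 1 = 2 * (i + 1) + 1 by ring, vX_c (by omega)]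
      push_cast
      linarith
    · rw [vX_q, show 2 * k + 2 + j + 1 = 2 * k + 2 + (j + 1) by ring, vX_q]
      push_cast
      linarith
  · rw [vY_q, vY_w]
    unfold hH
    ring
  · intro a h0 ha
    rw [vY_w]
    have hHp : 0 < hH k M := by unfold hH; positivity
    rcases idx_cases (k := k) (M := M) ha.le with rfl | ⟨i, hi, rfl⟩ | ⟨i, hi, rfl⟩ | ⟨j, hj, rfl⟩
    · omega
    · rw [vY_c hi]
      nlinarith [sq_nonneg (i : ℝ)]
    · rw [vY_t hi]
      have := mS_pos (s := s) hi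
      nlinarith [sq_nonneg ((i : ℝ) + 1)]
    · rw [vY_q]
      have hj' : (j : ℝ) + 1 ≤ M := by exact_mod_cast (by omega : j + 1 ≤ M)
      have hj0 : (0 : ℝ) ≤ j := Nat.cast_nonneg j
      have h1 : (j : ℝ) ^ 2 < (M : ℝ) ^ 2 := by nlinarith
      have h2 := mul_lt_mul_of_pos_left h1 hB
      unfold hH
      linarith

/-- Visibility of the vertices `a` and `b`. -/
def vis (k M : ℕ) (s : ℕ → ℕ) (a b : ℕ) : Prop :=
  segment ℝ (vX k M a, vY k M s a) (vX k M b, vY k M s b) ⊆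
    reg (vX k M) (vY k M s) (2 * k + 2 + M)

section table

variable (hs : ∀ i, i < k → s i < M) (hM : 1 ≤ M)
include hs hM

theorem vis_succ {a : ℕ} (ha : a < 2 * k + 2 + M) : vis k M s a (a + 1) :=
  visible_succ (monoPoly hs hM) ha

/-- consecutive points of the parabola -/
theorem vis_cc {i : ℕ} (hi : i < k) : vis k M s (2 * i + 1) (2 * i + 3) := by
  refine visible_of (monoPoly hs hM) (by omega) (by omega) ?_
  intro m h1 h2
  have : m = 2 * i + 2 := by omega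
  subst this
  rw [show 2 * i + 3 = 2 * (i + 1) + 1 by ring, vX_c hi.le, vX_c (by omega), vX_t hi, vY_c hi.le,
    vY_c (by omega), vY_t hi]
  have := mS_pos (s := s) hi
  have hi0 : (0 : ℝ) ≤ i := Nat.cast_nonneg i
  push_cast
  nlinarith

/-- points of the parabola that are not consecutive -/
theorem not_vis_cc {i j : ℕ} (hij : i + 2 ≤ j) (hj : j ≤ k) :
    ¬ vis k M s (2 * i + 1) (2 * j + 1) := by
  refine not_visible_of (m := 2 * (i + 1) + 1) (monoPoly hs hM) (by omega) (by omega) (by omega) ?_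
  rw [vX_c (by omega), vX_c (by omega), vX_c (by omega), vY_c (by omega), vY_c (by omega),
    vY_c (by omega)]
  have hi0 : (0 : ℝ) ≤ i := Nat.cast_nonneg i
  have h1 : (i : ℝ) + 2 ≤ j := by exact_mod_cast hij
  push_cast
  nlinarith

/-- a tip and later points of the left part -/
theorem not_vis_t {i b : ℕ} (hi : i < k) (h1 : 2 * i + 3 < b) (h2 : b ≤ 2 * k + 1) :
    ¬ vis k M s (2 * i + 2) b := by
  have hX : ((i : ℝ) + 1) + 1 / 2 ≤ vX k M b ∧ ((i : ℝ) + 1) ^ 2 ≤ vY k M s b := by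
    have hi0 : (0 : ℝ) ≤ i := Nat.cast_nonneg i
    rcases idx_cases (k := k) (M := M) (by omega : b ≤ 2 * k + 2 + M) with
      rfl | ⟨l, hl, rfl⟩ | ⟨l, hl, rfl⟩ | ⟨j, hj, rfl⟩
    · omega
    · have h3 : (i : ℝ) + 2 ≤ l := by exact_mod_cast (by omega : i + 2 ≤ l)
      rw [vX_c hl, vY_c hl]
      constructor
      · linarith
      · nlinarith
    · have h3 : (i : ℝ) + 1 ≤ l := by exact_mod_cast (by omega : i + 1 ≤ l)
      rw [vX_t hl, vY_t hl]
      have := mS_pos (s := s) hl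
      constructor
      · linarith
      · nlinarith
    · omega
  refine not_visible_of (m := 2 * (i + 1) + 1) (monoPoly hs hM) (by omega) (by omega) (by omega) ?_
  rw [vX_c (by omega), vX_t hi, vY_c (by omega), vY_t hi]
  have := mS_pos (s := s) hi
  push_cast
  nlinarith [mul_le_mul_of_nonneg_left hX.1 this.le]

/-- a point of the parabola and a later tip -/
theorem not_vis_ct {i j : ℕ} (hij : i < j) (hj : j < k) :
    ¬ vis k M s (2 * i + 1) (2 * j + 2) := by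
  refine not_visible_of (m := 2 * j + 1) (monoPoly hs hM) (by omega) (by omega) (by omega) ?_
  rw [vX_c (by omega), vX_c (by omega), vX_t hj, vY_c (by omega), vY_c (by omega), vY_t hj]
  have hi0 : (0 : ℝ) ≤ i := Nat.cast_nonneg i
  have h1 : (i : ℝ) + 1 ≤ j := by exact_mod_cast hij
  have h2 := mS_pos (s := s) hj
  -- `d / (d + 1/2) * (j + d/2 + 1 + m/2) > 0`
  have h3 : 0 < ((j : ℝ) - i) * ((j : ℝ) + (j - i) / 2 + 1 + mS k s j / 2) :=
    mul_pos (by linarith) (by linarith)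
  nlinarith

omit hs hM in
/-- comparison with a point of the arc -/
theorem arc_aux {D y l j : ℝ} (_hl : 0 ≤ l) (hlj : l + 1 ≤ j)
    (hy : y ≤ bB k * (D * (j + l) + j * l)) :
    (-bB k * j ^ 2 - y) * (D + l) ≤ (-bB k * l ^ 2 - y) * (D + j) := by
  have e : (-bB k * l ^ 2 - y) * (D + j) - (-bB k * j ^ 2 - y) * (D + l) =
      (j - l) * (bB k * (D * (j + l) + j * l) - y) := by ring
  have h : 0 ≤ (j - l) * (bB k * (D * (j + l) + j * l) - y) :=
    mul_nonneg (by linarith) (by linarith)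
  linarith

/-- points of the parabola see the arc -/
theorem vis_cq {i j : ℕ} (hi : i ≤ k) (hj : j ≤ M) : vis k M s (2 * i + 1) (2 * k + 2 + j) := by
  refine visible_of (monoPoly hs hM) (by omega) (by omega) ?_
  intro m h1 h2
  have hi0 : (0 : ℝ) ≤ i := Nat.cast_nonneg i
  have hj0 : (0 : ℝ) ≤ j := Nat.cast_nonneg j
  have hik : (i : ℝ) ≤ k := by exact_mod_cast hi
  have hB := bB_pos k
  rw [vX_q, vY_q, vX_c hi, vY_c hi]
  rcases idx_cases (k := k) (M := M) (by omega : m ≤ 2 * k + 2 + M) with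
    rfl | ⟨l, hl, rfl⟩ | ⟨l, hl, rfl⟩ | ⟨l, hl, rfl⟩
  · omega
  · rw [vX_c hl, vY_c hl]
    have h3 : (i : ℝ) + 1 ≤ l := by exact_mod_cast (by omega : i + 1 ≤ l)
    have e1 : (-bB k * (j : ℝ) ^ 2 - (i : ℝ) ^ 2) * ((l : ℝ) - i) ≤ 0 := by
      apply mul_nonpos_of_nonpos_of_nonneg
      · nlinarith [mul_nonneg hB.le (sq_nonneg (j : ℝ)), sq_nonneg (i : ℝ)]
      · linarith
    have e2 : 0 ≤ ((l : ℝ) ^ 2 - (i : ℝ) ^ 2) * ((k : ℝ) + 1 + j - i) := by
      apply mul_nonneg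
      · nlinarith
      · linarith
    linarith
  · rw [vX_t hl, vY_t hl]
    have h3 : (i : ℝ) ≤ l := by exact_mod_cast (by omega : i ≤ l)
    have hm := mS_pos (s := s) hl
    have e1 : (-bB k * (j : ℝ) ^ 2 - (i : ℝ) ^ 2) * ((l : ℝ) + 1 / 2 - i) ≤ 0 := by
      apply mul_nonpos_of_nonpos_of_nonneg
      · nlinarith [mul_nonneg hB.le (sq_nonneg (j : ℝ)), sq_nonneg (i : ℝ)]
      · linarith
    have e2 : 0 ≤ (((l : ℝ) + 1) ^ 2 + mS k s l / 2 - (i : ℝ) ^ 2) * ((k : ℝ) + 1 + j - i) := by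
      apply mul_nonneg
      · nlinarith
      · linarith
    linarith
  · rw [vX_q, vY_q]
    have h3 : (l : ℝ) + 1 ≤ j := by exact_mod_cast (by omega : l + 1 ≤ j)
    have hl0 : (0 : ℝ) ≤ l := Nat.cast_nonneg l
    have h4 := arc_aux (k := k) (D := (k : ℝ) + 1 - i) (y := (i : ℝ) ^ 2) hl0 h3 (by
      have h5 : (i : ℝ) ^ 2 ≤ bB k := by unfold bB; nlinarith
      have h6 : (1 : ℝ) ≤ ((k : ℝ) + 1 - i) * (j + l) + j * l := by nlinarith [mul_nonneg hl0 hl0]
      nlinarith)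
    have e1 : (k : ℝ) + 1 + l - i = (k : ℝ) + 1 - i + l := by ring
    have e2 : (k : ℝ) + 1 + j - i = (k : ℝ) + 1 - i + j := by ring
    rw [e1, e2]
    exact h4

/-- tips see the lower part of the arc -/
theorem vis_tq {i j : ℕ} (hi : i < k) (hj : j ≤ M) (hij : s i + 1 ≤ j) :
    vis k M s (2 * i + 2) (2 * k + 2 + j) := by
  refine visible_of (monoPoly hs hM) (by omega) (by omega) ?_
  intro m h1 h2
  have hi0 : (0 : ℝ) ≤ i := Nat.cast_nonneg i
  have hj1 : (1 : ℝ) ≤ j := by exact_mod_cast (by omega : 1 ≤ j)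
  have hik : (i : ℝ) + 1 ≤ k := by exact_mod_cast hi
  have hB := bB_pos k
  have hm := mS_pos (s := s) hi
  have hlt := mS_lt (s := s) hi hij
  have hlt' := mS_lt' (s := s) hi hij
  -- the segment passes below `c_(i + 1)`
  have hneg : -bB k * (j : ℝ) ^ 2 - (((i : ℝ) + 1) ^ 2 + mS k s i / 2) ≤ 0 := by
    nlinarith [mul_nonneg hB.le (sq_nonneg (j : ℝ)), sq_nonneg ((i : ℝ) + 1)]
  have hkey : ∀ x y : ℝ, (i : ℝ) + 1 ≤ x → ((i : ℝ) + 1) ^ 2 ≤ y →
      (-bB k * (j : ℝ) ^ 2 - (((i : ℝ) + 1) ^ 2 + mS k s i / 2)) * (x - ((i : ℝ) + 1 / 2)) ≤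
      (y - (((i : ℝ) + 1) ^ 2 + mS k s i / 2)) * ((k : ℝ) + 1 + j - ((i : ℝ) + 1 / 2)) := by
    intro x y hx hy
    have e1 : (-bB k * (j : ℝ) ^ 2 - (((i : ℝ) + 1) ^ 2 + mS k s i / 2)) *
        (x - ((i : ℝ) + 1 / 2)) ≤
        (-bB k * (j : ℝ) ^ 2 - (((i : ℝ) + 1) ^ 2 + mS k s i / 2)) * (1 / 2) :=
      mul_le_mul_of_nonpos_left (by linarith) hneg
    have e2 : (((i : ℝ) + 1) ^ 2 - (((i : ℝ) + 1) ^ 2 + mS k s i / 2)) *
        ((k : ℝ) + 1 + j - ((i : ℝ) + 1 / 2)) ≤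
        (y - (((i : ℝ) + 1) ^ 2 + mS k s i / 2)) * ((k : ℝ) + 1 + j - ((i : ℝ) + 1 / 2)) :=
      mul_le_mul_of_nonneg_right (by linarith) (by linarith)
    nlinarith
  rw [vX_q, vY_q, vX_t hi, vY_t hi]
  rcases idx_cases (k := k) (M := M) (by omega : m ≤ 2 * k + 2 + M) with
    rfl | ⟨l, hl, rfl⟩ | ⟨l, hl, rfl⟩ | ⟨l, hl, rfl⟩
  · omega
  · rw [vX_c hl, vY_c hl]
    have h3 : (i : ℝ) + 1 ≤ l := by exact_mod_cast (by omega : i + 1 ≤ l)
    exact hkey _ _ h3 (by nlinarith)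
  · rw [vX_t hl, vY_t hl]
    have h3 : (i : ℝ) + 1 ≤ l := by exact_mod_cast (by omega : i + 1 ≤ l)
    have := mS_pos (s := s) hl
    exact hkey _ _ (by linarith) (by nlinarith)
  · rw [vX_q, vY_q]
    have h3 : (l : ℝ) + 1 ≤ j := by exact_mod_cast (by omega : l + 1 ≤ j)
    have hl0 : (0 : ℝ) ≤ l := Nat.cast_nonneg l
    have h4 := arc_aux (k := k) (D := (k : ℝ) + 1 / 2 - i)
      (y := ((i : ℝ) + 1) ^ 2 + mS k s i / 2) hl0 h3 (by
      have h5 : ((i : ℝ) + 1) ^ 2 ≤ bB k := by unfold bB; nlinarith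
      have h6 : (3 : ℝ) / 2 * j ≤ ((k : ℝ) + 1 / 2 - i) * (j + l) + j * l := by
        nlinarith [mul_nonneg (by linarith : (0 : ℝ) ≤ (k : ℝ) - i - 1) (by linarith : (0 : ℝ) ≤ j),
          mul_nonneg (by linarith : (0 : ℝ) ≤ (k : ℝ) + 1 / 2 - i) hl0,
          mul_nonneg (by linarith : (0 : ℝ) ≤ j) hl0]
      have h7 := mul_le_mul_of_nonneg_left h6 hB.le
      have h8 := mul_le_mul_of_nonneg_left hj1 hB.le
      linarith)
    have e1 : (k : ℝ) + 1 + l - (i + 1 / 2) = (k : ℝ) + 1 / 2 - i + l := by ring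
    have e2 : (k : ℝ) + 1 + j - (i + 1 / 2) = (k : ℝ) + 1 / 2 - i + j := by ring
    rw [e1, e2]
    exact h4

/-- tips do not see the upper part of the arc -/
theorem not_vis_tq {i j : ℕ} (hi : i < k) (hj : j ≤ M) (hij : j ≤ s i) :
    ¬ vis k M s (2 * i + 2) (2 * k + 2 + j) := by
  refine not_visible_of (m := 2 * (i + 1) + 1) (monoPoly hs hM) (by omega) (by omega) (by omega) ?_
  rw [vX_c (by omega), vX_t hi, vY_c (by omega), vY_t hi, vX_q, vY_q]
  have := mS_gt (s := s) hi hij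
  push_cast
  nlinarith

/-- points of the arc see each other -/
theorem vis_qq {i j : ℕ} (hij : i < j) (hj : j ≤ M) :
    vis k M s (2 * k + 2 + i) (2 * k + 2 + j) := by
  refine visible_of (monoPoly hs hM) (by omega) (by omega) ?_
  intro m h1 h2
  have hB := bB_pos k
  obtain ⟨l, rfl⟩ : ∃ l, m = 2 * k + 2 + l := ⟨m - (2 * k + 2), by omega⟩
  rw [vX_q, vX_q, vX_q, vY_q, vY_q, vY_q]
  have hi0 : (0 : ℝ) ≤ i := Nat.cast_nonneg i
  have h3 : (i : ℝ) + 1 ≤ l := by exact_mod_cast (by omega : i + 1 ≤ l)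
  have h4 : (l : ℝ) + 1 ≤ j := by exact_mod_cast (by omega : l + 1 ≤ j)
  have e : (-bB k * (l : ℝ) ^ 2 - -bB k * (i : ℝ) ^ 2) * ((k : ℝ) + 1 + j - (k + 1 + i)) -
      (-bB k * (j : ℝ) ^ 2 - -bB k * (i : ℝ) ^ 2) * ((k : ℝ) + 1 + l - (k + 1 + i)) =
      bB k * ((j - i) * ((l - i) * (j - l))) := by ring
  have h5 : 0 ≤ bB k * (((j : ℝ) - i) * ((l - i) * (j - l))) :=
    mul_nonneg hB.le (mul_nonneg (by linarith) (mul_nonneg (by linarith) (by linarith)))
  linarith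

/-- the point on the left sees the arc -/
theorem vis_wq {j : ℕ} (hj : j ≤ M) : vis k M s 0 (2 * k + 2 + j) := by
  refine visible_of (monoPoly hs hM) (by omega) (by omega) ?_
  intro m h1 h2
  have hB := bB_pos k
  have hH0 := hH_nonneg (k := k) (M := M)
  have hW : 0 < wW k M := by unfold wW; positivity
  have hj0 : (0 : ℝ) ≤ j := Nat.cast_nonneg j
  have hjM : (j : ℝ) ≤ M := by exact_mod_cast hj
  have hk0 : (0 : ℝ) ≤ k := Nat.cast_nonneg k
  have hHj : bB k * (j : ℝ) ^ 2 ≤ hH k M := by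
    unfold hH
    exact mul_le_mul_of_nonneg_left (by nlinarith) hB.le
  have hj2 : 0 ≤ bB k * (j : ℝ) ^ 2 := by positivity
  -- above the height of the arc point everything is fine
  have hkey : ∀ x y : ℝ, 0 ≤ x → x ≤ (k : ℝ) + 1 + j → -bB k * (j : ℝ) ^ 2 ≤ y →
      (-bB k * (j : ℝ) ^ 2 - -hH k M) * (x - -wW k M) ≤
        (y - -hH k M) * ((k : ℝ) + 1 + j - -wW k M) := by
    intro x y hx0 hx hy
    have e1 : (-bB k * (j : ℝ) ^ 2 - -hH k M) * (x - -wW k M) ≤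
        (-bB k * (j : ℝ) ^ 2 - -hH k M) * ((k : ℝ) + 1 + j - -wW k M) :=
      mul_le_mul_of_nonneg_left (by linarith) (by linarith)
    have e2 : (-bB k * (j : ℝ) ^ 2 - -hH k M) * ((k : ℝ) + 1 + j - -wW k M) ≤
        (y - -hH k M) * ((k : ℝ) + 1 + j - -wW k M) :=
      mul_le_mul_of_nonneg_right (by linarith) (by linarith)
    linarith
  rw [vX_q, vY_q, vX_w, vY_w]
  rcases idx_cases (k := k) (M := M) (by omega : m ≤ 2 * k + 2 + M) with
    rfl | ⟨l, hl, rfl⟩ | ⟨l, hl, rfl⟩ | ⟨l, hl, rfl⟩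
  · omega
  · rw [vX_c hl, vY_c hl]
    have h3 : (l : ℝ) ≤ k := by exact_mod_cast hl
    exact hkey _ _ (Nat.cast_nonneg l) (by linarith) (by nlinarith [sq_nonneg (l : ℝ)])
  · rw [vX_t hl, vY_t hl]
    have h3 : (l : ℝ) + 1 ≤ k := by exact_mod_cast hl
    have := mS_pos (s := s) hl
    have hl0 : (0 : ℝ) ≤ l := Nat.cast_nonneg l
    exact hkey _ _ (by linarith) (by linarith) (by nlinarith [sq_nonneg ((l : ℝ) + 1)])
  · rw [vX_q, vY_q]
    have h3 : (l : ℝ) + 1 ≤ j := by exact_mod_cast (by omega : l + 1 ≤ j)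
    have hl0 : (0 : ℝ) ≤ l := Nat.cast_nonneg l
    refine hkey _ _ (by linarith) (by linarith) ?_
    have : bB k * (l : ℝ) ^ 2 ≤ bB k * (j : ℝ) ^ 2 :=
      mul_le_mul_of_nonneg_left (by nlinarith) hB.le
    linarith

/-- the point on the left sees nothing else -/
theorem not_vis_w {b : ℕ} (h1 : 2 ≤ b) (h2 : b ≤ 2 * k + 1) : ¬ vis k M s 0 b := by
  have hB := bB_pos k
  have hH0 := hH_nonneg (k := k) (M := M)
  have hk0 : (0 : ℝ) ≤ k := Nat.cast_nonneg k
  have hW : 0 < wW k M := by unfold wW; positivity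
  have h3 : 0 < vX k M b ∧ vX k M b ≤ vY k M s b ∧ vY k M s b ≤ (k : ℝ) ^ 2 + hH k M / 2 := by
    rcases idx_cases (k := k) (M := M) (by omega : b ≤ 2 * k + 2 + M) with
      rfl | ⟨l, hl, rfl⟩ | ⟨l, hl, rfl⟩ | ⟨j, hj, rfl⟩
    · omega
    · have h3 : (1 : ℝ) ≤ l := by exact_mod_cast (by omega : 1 ≤ l)
      have h4 : (l : ℝ) ≤ k := by exact_mod_cast hl
      rw [vX_c hl, vY_c hl]
      exact ⟨by linarith, by nlinarith, by nlinarith⟩
    · have h3 : (0 : ℝ) ≤ l := Nat.cast_nonneg l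
      have h4 : (l : ℝ) + 1 ≤ k := by exact_mod_cast hl
      rw [vX_t hl, vY_t hl]
      have h5 := mS_pos (s := s) hl
      have h6 := mS_le_hH (s := s) (M := M) hl (hs l hl)
      exact ⟨by linarith, by nlinarith, by nlinarith⟩
    · omega
  obtain ⟨h4, h5, h6⟩ := h3
  refine not_visible_of (m := 2 * 0 + 1) (monoPoly hs hM) (by omega) (by omega) (by omega) ?_
  rw [vX_c (Nat.zero_le _), vY_c (Nat.zero_le _), vX_w, vY_w]
  have h7 : hH k M + (k : ℝ) ^ 2 + hH k M < wW k M := by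
    unfold wW
    nlinarith [sq_nonneg (k : ℝ)]
  -- `H x < y W`
  have h8 : hH k M * vX k M b < vY k M s b * wW k M := by
    have h9 : hH k M * vX k M b ≤ hH k M * vY k M s b := mul_le_mul_of_nonneg_left h5 hH0
    have h10 : hH k M * vY k M s b < wW k M * vY k M s b :=
      mul_lt_mul_of_pos_right (by nlinarith [sq_nonneg (k : ℝ)]) (by linarith)
    linarith
  push_cast
  nlinarith

end table

end Pool.Agent.L5helper43.Vis
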