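import Mathlib

/-!
# The visibility graphs of the lower bound are rigid

The vertices are `0` (left), `2 i + 1` (`c_i`), `2 i + 2` (`t_i`), `2 k + 2 + j` (`q_j`).
-/

namespace Pool.Agent.L5helper43.Vis

open Finset

/-- Adjacency of the vertices `a < b`. -/
def Rlt (k : ℕ) (s : ℕ → ℕ) (a b : ℕ) : Prop :=
  b = a + 1 ∨ (a % 2 = 1 ∧ b = a + 2 ∧ b ≤ 2 * k + 1) ∨
    (2 * k + 2 ≤ b ∧ (a % 2 = 1 ∨ a = 0 ∨ 2 * k + 2 ≤ a ∨ s (a / 2 - 1) + 1 ≤ b - (2 * k + 2)))

/-- Adjacency. -/
def Adjn (k : ℕ) (s : ℕ → ℕ) (a b : ℕ) : Prop := (a < b ∧ Rlt k s a b) ∨ (b < a ∧ Rlt k s b a)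

variable {k M : ℕ}

theorem adjn_small {s : ℕ → ℕ} {a b : ℕ} (ha : a ≤ 2 * k + 1) (hb : b ≤ 2 * k + 1) :
    Adjn k s a b ↔ b = a + 1 ∨ a = b + 1 ∨ (a % 2 = 1 ∧ b = a + 2) ∨ (b % 2 = 1 ∧ a = b + 2) := by
  unfold Adjn Rlt
  constructor
  · intro h; omega
  · intro h; omega

theorem adjn_big {s : ℕ → ℕ} {a b : ℕ} (ha : 2 * k + 2 ≤ a) (hb : ¬ Adjn k s a b) :
    b = a ∨ ∃ i, i < k ∧ b = 2 * i + 2 := by
  unfold Adjn Rlt at hb
  by_cases h : b = a
  · exact Or.inl h
  · right
    have h1 : b % 2 = 0 ∧ 0 < b ∧ b < 2 * k + 2 := by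
      rcases Nat.lt_or_ge a b with h2 | h2
      · exfalso; apply hb; left
        exact ⟨h2, Or.inr (Or.inr ⟨by omega, Or.inr (Or.inr (Or.inl ha))⟩)⟩
      · have h3 : b < a := by omega
        refine ⟨?_, ?_, ?_⟩
        · by_contra hc
          apply hb; right
          exact ⟨h3, Or.inr (Or.inr ⟨ha, Or.inl (by omega)⟩)⟩
        · by_contra hc
          apply hb; right
          exact ⟨h3, Or.inr (Or.inr ⟨ha, Or.inr (Or.inl (by omega))⟩)⟩
        · by_contra hc
          apply hb; right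
          exact ⟨h3, Or.inr (Or.inr ⟨ha, Or.inr (Or.inr (Or.inl (by omega)))⟩)⟩
    exact ⟨b / 2 - 1, by omega, by omega⟩

open Classical in
/-- The non-neighbours. -/
noncomputable def nn (k M : ℕ) (s : ℕ → ℕ) (a : ℕ) : Finset ℕ :=
  (range (2 * k + 2 + M + 1)).filter (fun b => ¬ Adjn k s a b)

theorem nn_big {s : ℕ → ℕ} {a : ℕ} (ha : 2 * k + 2 ≤ a) : (nn k M s a).card ≤ k + 1 := by
  classical
  have h : nn k M s a ⊆ insert a ((range k).image (fun i => 2 * i + 2)) := by
    intro b hb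
    rw [nn, mem_filter] at hb
    rcases adjn_big ha hb.2 with rfl | ⟨i, hi, rfl⟩
    · exact mem_insert_self _ _
    · exact mem_insert_of_mem (mem_image.2 ⟨i, mem_range.2 hi, rfl⟩)
  refine (card_le_card h).trans ((card_insert_le _ _).trans ?_)
  have := card_image_le (s := range k) (f := fun i => 2 * i + 2)
  rw [card_range] at this
  omega

theorem nn_small {s : ℕ → ℕ} {a : ℕ} (ha : a ≤ 2 * k + 1) (hk : 4 ≤ k) :
    k + 2 ≤ (nn k M s a).card := by
  classical
  have h : range (2 * k + 2) \ {a - 2, a - 1, a + 1, a + 2} ⊆ nn k M s a := by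
    intro b hb
    simp only [mem_sdiff, mem_range, mem_insert, mem_singleton, not_or] at hb
    rw [nn, mem_filter, mem_range]
    refine ⟨by omega, ?_⟩
    rw [adjn_small ha (by omega)]
    omega
  have h1 := card_le_card h
  have h2 := le_card_sdiff ({a - 2, a - 1, a + 1, a + 2} : Finset ℕ) (range (2 * k + 2))
  have h3 : ({a - 2, a - 1, a + 1, a + 2} : Finset ℕ).card ≤ 4 := card_le_four
  rw [card_range] at h2
  omega

theorem rigid (hk : 4 ≤ k) {s s' : ℕ → ℕ} (hs : ∀ i, i < k → s i < M)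
    (hs' : ∀ i, i < k → s' i < M) (f g : ℕ → ℕ)
    (hf : ∀ a, a < 2 * k + 2 + M + 1 → f a < 2 * k + 2 + M + 1)
    (hg : ∀ a, a < 2 * k + 2 + M + 1 → g a < 2 * k + 2 + M + 1)
    (hgf : ∀ a, a < 2 * k + 2 + M + 1 → g (f a) = a)
    (hfg : ∀ a, a < 2 * k + 2 + M + 1 → f (g a) = a)
    (hadj : ∀ a b, a < 2 * k + 2 + M + 1 → b < 2 * k + 2 + M + 1 →
      (Adjn k s a b ↔ Adjn k s' (f a) (f b))) :
    ∀ i, i + 1 < k → s i = s' i := by
  classical
  have hinj : ∀ a b, a < 2 * k + 2 + M + 1 → b < 2 * k + 2 + M + 1 → f a = f b → a = b := by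
    intro a b ha hb h
    rw [← hgf a ha, h, hgf b hb]
  -- numbers of non-neighbours
  have hnn : ∀ a, a < 2 * k + 2 + M + 1 → (nn k M s a).card = (nn k M s' (f a)).card := by
    intro a ha
    refine card_bij (fun b _ => f b) ?_ ?_ ?_
    · intro b hb
      rw [nn, mem_filter, mem_range] at hb ⊢
      exact ⟨hf b hb.1, fun h => hb.2 ((hadj a b ha hb.1).2 h)⟩
    · intro b hb c hc h
      rw [nn, mem_filter, mem_range] at hb hc
      exact hinj b c hb.1 hc.1 h
    · intro b hb
      rw [nn, mem_filter, mem_range] at hb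
      refine ⟨g b, ?_, hfg b hb.1⟩
      rw [nn, mem_filter, mem_range]
      refine ⟨hg b hb.1, fun h => hb.2 ?_⟩
      have := (hadj a (g b) ha (hg b hb.1)).1 h
      rwa [hfg b hb.1] at this
  have hsm : ∀ a, a < 2 * k + 2 + M + 1 → (a ≤ 2 * k + 1 ↔ f a ≤ 2 * k + 1) := by
    intro a ha
    have h := hnn a ha
    constructor
    · intro h1
      by_contra h2
      have h3 := nn_small (M := M) (s := s) h1 hk
      have h4 := nn_big (k := k) (M := M) (s := s') (a := f a) (by omega)
      omega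
    · intro h1
      by_contra h2
      have h3 := nn_small (M := M) (s := s') h1 hk
      have h4 := nn_big (k := k) (M := M) (s := s) (a := a) (by omega)
      omega
  have hsmg : ∀ a, a ≤ 2 * k + 1 → g a ≤ 2 * k + 1 := by
    intro a ha
    rw [hsm (g a) (hg a (by omega)), hfg a (by omega)]
    exact ha
  have hsmf : ∀ a, a ≤ 2 * k + 1 → f a ≤ 2 * k + 1 := fun a ha => (hsm a (by omega)).1 ha
  -- the adjacency of the small vertices
  have hA : ∀ a b, a ≤ 2 * k + 1 → b ≤ 2 * k + 1 →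
      ((b = a + 1 ∨ a = b + 1 ∨ (a % 2 = 1 ∧ b = a + 2) ∨ (b % 2 = 1 ∧ a = b + 2)) ↔
      (f b = f a + 1 ∨ f a = f b + 1 ∨ (f a % 2 = 1 ∧ f b = f a + 2) ∨
        (f b % 2 = 1 ∧ f a = f b + 2))) := by
    intro a b ha hb
    rw [← adjn_small (s := s) ha hb, ← adjn_small (s := s') (hsmf a ha) (hsmf b hb)]
    exact hadj a b (by omega) (by omega)
  -- the leftmost vertex
  have h0 : f 0 = 0 := by
    by_contra hne
    have hx := hsmf 0 (by omega)
    -- two small neighbours of `f 0`
    obtain ⟨y1, y2, h1, h2, h3, h4, h5⟩ : ∃ y1 y2, y1 ≤ 2 * k + 1 ∧ y2 ≤ 2 * k + 1 ∧ y1 ≠ y2 ∧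
        (y1 = f 0 + 1 ∨ f 0 = y1 + 1 ∨ (f 0 % 2 = 1 ∧ y1 = f 0 + 2) ∨
          (y1 % 2 = 1 ∧ f 0 = y1 + 2)) ∧
        (y2 = f 0 + 1 ∨ f 0 = y2 + 1 ∨ (f 0 % 2 = 1 ∧ y2 = f 0 + 2) ∨
          (y2 % 2 = 1 ∧ f 0 = y2 + 2)) := by
      by_cases h : f 0 = 2 * k + 1
      · exact ⟨2 * k, 2 * k - 1, by omega, by omega, by omega, by omega, by omega⟩
      · exact ⟨f 0 - 1, f 0 + 1, by omega, by omega, by omega, by omega, by omega⟩
    have e1 := (hA 0 (g y1) (by omega) (hsmg y1 h1)).2 (by rw [hfg y1 (by omega)]; exact h4)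
    have e2 := (hA 0 (g y2) (by omega) (hsmg y2 h2)).2 (by rw [hfg y2 (by omega)]; exact h5)
    have e3 : g y1 = g y2 := by omega
    have e4 := congrArg f e3
    rw [hfg y1 (by omega), hfg y2 (by omega)] at e4
    exact h3 e4
  have h1 : f 1 = 1 := by
    have h := (hA 0 1 (by omega) (by omega)).1 (by omega)
    rw [h0] at h
    omega
  -- inner odd vertices go to odd vertices
  have hodd : ∀ a, a % 2 = 1 → 3 ≤ a → a + 2 ≤ 2 * k + 1 → f a % 2 = 1 := by
    intro a ha ha3 hak
    by_contra hev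
    have hx := hsmf a (by omega)
    have e1 := (hA a (a - 1) (by omega) (by omega)).1 (by omega)
    have e2 := (hA a (a - 2) (by omega) (by omega)).1 (by omega)
    have e3 := (hA a (a + 1) (by omega) (by omega)).1 (by omega)
    have i1 : f (a - 1) ≠ f (a - 2) := fun h => by
      have := hinj _ _ (by omega) (by omega) h; omega
    have i2 : f (a - 1) ≠ f (a + 1) := fun h => by
      have := hinj _ _ (by omega) (by omega) h; omega
    have i3 : f (a - 2) ≠ f (a + 1) := fun h => by
      have := hinj _ _ (by omega) (by omega) h; omega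
    omega
  have hc : ∀ i, i + 1 ≤ k → f (2 * i + 1) = 2 * i + 1 ∧
      (i + 2 ≤ k → f (2 * i + 3) = 2 * i + 3) := by
    intro i
    induction i with
    | zero =>
      intro _
      refine ⟨h1, ?_⟩
      intro hk2
      show f 3 = 3
      have e := (hA 1 3 (by omega) (by omega)).1 (by omega)
      rw [h1] at e
      have e2 := hodd 3 (by omega) (by omega) (by omega)
      have e3 : f 3 ≠ f 1 := fun h => by
        have := hinj _ _ (by omega) (by omega) h; omega
      rw [h1] at e3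
      have e4 : f 3 ≠ f 0 := fun h => by
        have := hinj _ _ (by omega) (by omega) h; omega
      rw [h0] at e4
      omega
    | succ i ih =>
      intro hi
      obtain ⟨ih1, ih2⟩ := ih (by omega)
      have ih3 := ih2 (by omega)
      have e0 : 2 * (i + 1) + 1 = 2 * i + 3 := by ring
      rw [e0]
      refine ⟨ih3, ?_⟩
      intro hi2
      have e := (hA (2 * i + 3) (2 * (i + 1) + 3) (by omega) (by omega)).1 (by omega)
      rw [ih3] at e
      have e2 := hodd (2 * (i + 1) + 3) (by omega) (by omega) (by omega)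
      have e3 : f (2 * (i + 1) + 3) ≠ f (2 * i + 1) := fun h => by
        have := hinj _ _ (by omega) (by omega) h; omega
      rw [ih1] at e3
      have e4 : f (2 * (i + 1) + 3) ≠ f (2 * i + 3) := fun h => by
        have := hinj _ _ (by omega) (by omega) h; omega
      rw [ih3] at e4
      omega
  intro i hi
  -- the tips are fixed
  have ht : f (2 * i + 2) = 2 * i + 2 := by
    obtain ⟨c1, c2⟩ := hc i (by omega)
    have c3 := c2 (by omega)
    have e1 := (hA (2 * i + 1) (2 * i + 2) (by omega) (by omega)).1 (by omega)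
    have e2 := (hA (2 * i + 3) (2 * i + 2) (by omega) (by omega)).1 (by omega)
    rw [c1] at e1
    rw [c3] at e2
    omega
  -- count the big non-neighbours
  have hcount : ∀ r : ℕ → ℕ, (∀ i, i < k → r i < M) →
      ((range (2 * k + 2 + M + 1)).filter (fun b => 2 * k + 2 ≤ b ∧ ¬ Adjn k r (2 * i + 2) b)).card
        = r i + 1 := by
    intro r hr
    have h : (range (2 * k + 2 + M + 1)).filter
        (fun b => 2 * k + 2 ≤ b ∧ ¬ Adjn k r (2 * i + 2) b) =
        (range (r i + 1)).image (fun j => 2 * k + 2 + j) := by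
      have hri := hr i (by omega)
      have e : (2 * i + 2) / 2 - 1 = i := by omega
      ext b
      simp only [mem_filter, mem_range, mem_image]
      unfold Adjn Rlt
      rw [e]
      constructor
      · rintro ⟨h1, h2, h3⟩
        refine ⟨b - (2 * k + 2), ?_, by omega⟩
        by_contra h4
        apply h3
        left
        refine ⟨by omega, Or.inr (Or.inr ⟨h2, Or.inr (Or.inr (Or.inr (by omega)))⟩)⟩
      · rintro ⟨j, h1, rfl⟩
        refine ⟨by omega, by omega, ?_⟩
        rintro (⟨h2, h3⟩ | ⟨h2, h3⟩)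
        · omega
        · omega
    rw [h, card_image_of_injective _ (fun a b hab => by simpa using hab), card_range]
  have e1 := hcount s hs
  have e2 := hcount s' hs'
  have e3 : ((range (2 * k + 2 + M + 1)).filter
      (fun b => 2 * k + 2 ≤ b ∧ ¬ Adjn k s (2 * i + 2) b)).card =
      ((range (2 * k + 2 + M + 1)).filter
      (fun b => 2 * k + 2 ≤ b ∧ ¬ Adjn k s' (2 * i + 2) b)).card := by
    refine card_bij (fun b _ => f b) ?_ ?_ ?_
    · intro b hb
      rw [mem_filter, mem_range] at hb ⊢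
      refine ⟨hf b hb.1, ?_, ?_⟩
      · have := hsm b hb.1
        omega
      · intro h
        apply hb.2.2
        rw [hadj _ _ (by omega) hb.1, ht]
        exact h
    · intro b hb c hc h
      rw [mem_filter, mem_range] at hb hc
      exact hinj b c hb.1 hc.1 h
    · intro b hb
      rw [mem_filter, mem_range] at hb
      refine ⟨g b, ?_, hfg b hb.1⟩
      rw [mem_filter, mem_range]
      refine ⟨hg b hb.1, ?_, ?_⟩
      · have := hsm (g b) (hg b hb.1)
        rw [hfg b hb.1] at this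
        omega
      · intro h
        apply hb.2.2
        rw [hadj _ _ (by omega) (hg b hb.1), ht, hfg b hb.1] at h
        exact h
  omega

end Pool.Agent.L5helper43.Vis
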