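import Pool.Agent.L5helper43.Vis.Family
import Pool.Agent.L5helper43.Vis.Rigid

/-!
# Lower bound for the number of visibility graphs of simple polygons
-/

namespace Pool.Agent.L5helper43.Vis

open Vis124 Pool.Agent.H595K

/-- There are no straight angles: three consecutive vertices are never collinear. -/
def NoStraightAngle {n : ℕ} (v : Fin n → ℝ × ℝ) : Prop :=
  ∀ i, ¬ Collinear ℝ {v i, v (finRotate n i), v (finRotate n (finRotate n i))}

/-- The isomorphism classes of visibility graphs of simple polygons with `n` vertices and without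
straight angles. -/
def visClassesStrict (n : ℕ) : Set (Quotient (isoSetoid n)) :=
  {q | ∃ (v : Fin n → ℝ × ℝ) (P : Set (ℝ × ℝ)), IsSimplePolygon v P ∧ NoStraightAngle v ∧
    q = Quotient.mk (isoSetoid n) (visGraph v P)}

/-- The number of isomorphism classes of visibility graphs of simple polygons with `n` vertices and
without straight angles. -/
noncomputable def Nstrict (n : ℕ) : ℕ := (visClassesStrict n).ncard

theorem Nstrict_le (n : ℕ) : Nstrict n ≤ N n := by
  apply Set.ncard_le_ncard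
  · rintro q ⟨v, P, h, _, rfl⟩
    exact ⟨v, P, h, rfl⟩
  · exact Set.toFinite _

variable {k M : ℕ} {s : ℕ → ℕ}

theorem vis_iff (hs : ∀ i, i < k → s i < M) (hM : 1 ≤ M) {a b : ℕ} (hab : a < b)
    (hb : b ≤ 2 * k + 2 + M) : vis k M s a b ↔ Rlt k s a b := by
  rcases idx_cases (k := k) (M := M) (hab.le.trans hb) with
    rfl | ⟨i, hi, rfl⟩ | ⟨i, hi, rfl⟩ | ⟨i, hi, rfl⟩
  · rcases idx_cases (k := k) (M := M) hb with
      rfl | ⟨l, hl, rfl⟩ | ⟨l, hl, rfl⟩ | ⟨l, hl, rfl⟩
    · omega
    · rcases Nat.eq_zero_or_pos l with rfl | h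
      · exact iff_of_true (vis_succ hs hM (by omega)) (Or.inl rfl)
      · exact iff_of_false (not_vis_w hs hM (by omega) (by omega)) (by unfold Rlt; omega)
    · exact iff_of_false (not_vis_w hs hM (by omega) (by omega)) (by unfold Rlt; omega)
    · exact iff_of_true (vis_wq hs hM hl) (by unfold Rlt; omega)
  · rcases idx_cases (k := k) (M := M) hb with
      rfl | ⟨l, hl, rfl⟩ | ⟨l, hl, rfl⟩ | ⟨l, hl, rfl⟩
    · omega
    · rcases Nat.lt_or_ge l (i + 2) with h | h
      · obtain rfl : l = i + 1 := by omega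
        exact iff_of_true (vis_cc hs hM (by omega)) (by unfold Rlt; omega)
      · exact iff_of_false (not_vis_cc hs hM h hl) (by unfold Rlt; omega)
    · rcases Nat.lt_or_ge i l with h | h
      · exact iff_of_false (not_vis_ct hs hM h hl) (by unfold Rlt; omega)
      · obtain rfl : l = i := by omega
        exact iff_of_true (vis_succ hs hM (by omega)) (Or.inl rfl)
    · exact iff_of_true (vis_cq hs hM hi hl) (by unfold Rlt; omega)
  · have e : (2 * i + 2) / 2 - 1 = i := by omega
    rcases idx_cases (k := k) (M := M) hb with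
      rfl | ⟨l, hl, rfl⟩ | ⟨l, hl, rfl⟩ | ⟨l, hl, rfl⟩
    · omega
    · rcases Nat.lt_or_ge (i + 1) l with h | h
      · exact iff_of_false (not_vis_t hs hM hi (by omega) (by omega)) (by unfold Rlt; omega)
      · obtain rfl : l = i + 1 := by omega
        exact iff_of_true (vis_succ hs hM (by omega)) (Or.inl rfl)
    · exact iff_of_false (not_vis_t hs hM hi (by omega) (by omega)) (by unfold Rlt; omega)
    · rcases Nat.lt_or_ge (s i) l with h | h
      · exact iff_of_true (vis_tq hs hM hi hl h) (by unfold Rlt; rw [e]; omega)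
      · exact iff_of_false (not_vis_tq hs hM hi hl h) (by unfold Rlt; rw [e]; omega)
  · obtain ⟨l, rfl⟩ : ∃ l, b = 2 * k + 2 + l := ⟨b - (2 * k + 2), by omega⟩
    exact iff_of_true (vis_qq hs hM (by omega) (by omega)) (by unfold Rlt; omega)

/-- The polygon. -/
noncomputable def vv (k M : ℕ) (s : ℕ → ℕ) : Fin (2 * k + 2 + M + 1) → ℝ × ℝ :=
  pv (vX k M) (vY k M s) (2 * k + 2 + M)

/-- The region. -/
noncomputable def rr (k M : ℕ) (s : ℕ → ℕ) : Set (ℝ × ℝ) :=
  reg (vX k M) (vY k M s) (2 * k + 2 + M)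

theorem adj_iff (hs : ∀ i, i < k → s i < M) (hM : 1 ≤ M) (a b : Fin (2 * k + 2 + M + 1)) :
    (visGraph (vv k M s) (rr k M s)).Adj a b ↔ Adjn k s a b := by
  show (a ≠ b ∧ segment ℝ (vv k M s a) (vv k M s b) ⊆ rr k M s) ↔ _
  unfold Adjn
  have ha := a.2
  have hb := b.2
  rcases lt_trichotomy (a : ℕ) b with h | h | h
  · have h1 := vis_iff hs hM h (by omega)
    have h2 : segment ℝ (vv k M s a) (vv k M s b) ⊆ rr k M s ↔ vis k M s a b := Iff.rfl
    rw [h2, h1]
    constructor
    · rintro ⟨_, h3⟩; exact Or.inl ⟨h, h3⟩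
    · rintro (⟨_, h3⟩ | ⟨h3, _⟩)
      · exact ⟨fun e => by rw [e] at h; exact lt_irrefl _ h, h3⟩
      · omega
  · have : a = b := Fin.ext h
    subst this
    constructor
    · rintro ⟨h1, _⟩; exact absurd rfl h1
    · rintro (⟨h1, _⟩ | ⟨h1, _⟩) <;> omega
  · have h1 := vis_iff hs hM h (by omega)
    have h2 : segment ℝ (vv k M s a) (vv k M s b) ⊆ rr k M s ↔ vis k M s b a := by
      rw [segment_symm]
      exact Iff.rfl
    rw [h2, h1]
    constructor
    · rintro ⟨_, h3⟩; exact Or.inr ⟨h, h3⟩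
    · rintro (⟨h3, _⟩ | ⟨_, h3⟩)
      · omega
      · exact ⟨fun e => by rw [e] at h; exact lt_irrefl _ h, h3⟩

theorem rigid' (hk : 4 ≤ k) (hM : 1 ≤ M) {s s' : ℕ → ℕ} (hs : ∀ i, i < k → s i < M)
    (hs' : ∀ i, i < k → s' i < M)
    (φ : visGraph (vv k M s) (rr k M s) ≃g visGraph (vv k M s') (rr k M s')) :
    ∀ i, i + 1 < k → s i = s' i := by
  refine rigid hk hs hs'
    (fun a => if h : a < 2 * k + 2 + M + 1 then (φ ⟨a, h⟩ : ℕ) else a)
    (fun a => if h : a < 2 * k + 2 + M + 1 then (φ.symm ⟨a, h⟩ : ℕ) else a) ?_ ?_ ?_ ?_ ?_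
  · intro a ha
    simp only [ha, dif_pos]
    exact (φ ⟨a, ha⟩).2
  · intro a ha
    simp only [ha, dif_pos]
    exact (φ.symm ⟨a, ha⟩).2
  · intro a ha
    have h1 := (φ ⟨a, ha⟩).2
    simp only [ha, dif_pos, h1, Fin.eta]
    simp
  · intro a ha
    have h1 := (φ.symm ⟨a, ha⟩).2
    simp only [ha, dif_pos, h1, Fin.eta]
    simp
  · intro a b ha hb
    simp only [ha, hb, dif_pos]
    rw [← adj_iff hs' hM (φ ⟨a, ha⟩) (φ ⟨b, hb⟩), φ.map_adj_iff, adj_iff hs hM]

/-- A criterion for three points not to be collinear. -/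
theorem not_collinear {p q r : ℝ × ℝ}
    (h : (q.1 - p.1) * (r.2 - p.2) - (r.1 - p.1) * (q.2 - p.2) ≠ 0) :
    ¬ Collinear ℝ {p, q, r} := by
  intro hc
  apply h
  rw [collinear_iff_of_mem (p₀ := p) (by simp)] at hc
  obtain ⟨v, hv⟩ := hc
  obtain ⟨r1, h1⟩ := hv q (by simp)
  obtain ⟨r2, h2⟩ := hv r (by simp)
  have e1 : q.1 = r1 * v.1 + p.1 := by rw [h1]; rfl
  have e2 : q.2 = r1 * v.2 + p.2 := by rw [h1]; rfl
  have e3 : r.1 = r2 * v.1 + p.1 := by rw [h2]; rfl
  have e4 : r.2 = r2 * v.2 + p.2 := by rw [h2]; rfl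
  rw [e1, e2, e3, e4]
  ring

/-- Three consecutive vertices of the polygon are not collinear. -/
theorem turn (hk : 1 ≤ k) {a : ℕ}
    (ha : a + 2 ≤ 2 * k + 2 + M) :
    (vX k M (a + 1) - vX k M a) * (vY k M s (a + 2) - vY k M s a) -
      (vX k M (a + 2) - vX k M a) * (vY k M s (a + 1) - vY k M s a) ≠ 0 := by
  have hB := bB_pos k
  have hk0 : (1 : ℝ) ≤ k := by exact_mod_cast hk
  rcases idx_cases (k := k) (M := M) (by omega : a ≤ 2 * k + 2 + M) with
    rfl | ⟨i, hi, rfl⟩ | ⟨i, hi, rfl⟩ | ⟨i, hi, rfl⟩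
  · -- `w, c_0, t_0`
    have hX1 : vX k M (0 + 1) = 0 := by
      have := vX_c (k := k) (M := M) (i := 0) (Nat.zero_le _)
      simpa using this
    have hY1 : vY k M s (0 + 1) = 0 := by
      have := vY_c (k := k) (M := M) (s := s) (i := 0) (Nat.zero_le _)
      simpa using this
    have hX2 : vX k M (0 + 2) = 1 / 2 := by
      have := vX_t (k := k) (M := M) (i := 0) (by omega)
      simpa using this
    have hY2 : vY k M s (0 + 2) = 1 + mS k s 0 / 2 := by
      have := vY_t (k := k) (M := M) (s := s) (i := 0) (by omega)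
      simpa using this
    rw [hX1, hY1, hX2, hY2, vX_w, vY_w]
    have hm := mS_pos (s := s) (k := k) (i := 0) (by omega)
    have hH0 := hH_nonneg (k := k) (M := M)
    have hW : wW k M = 4 * (hH k M + (k : ℝ) ^ 2 + 1) := rfl
    apply ne_of_gt
    nlinarith [mul_nonneg hm.le hH0, sq_nonneg (k : ℝ)]
  · rcases Nat.lt_or_ge i k with hik | hik
    · -- `c_i, t_i, c_(i+1)`
      rw [show 2 * i + 1 + 1 = 2 * i + 2 by ring, show 2 * i + 1 + 2 = 2 * (i + 1) + 1 by ring,
        vX_c hi, vY_c hi, vX_t hik, vY_t hik, vX_c (by omega), vY_c (by omega)]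
      have hm := mS_pos (s := s) hik
      have hi0 : (0 : ℝ) ≤ i := Nat.cast_nonneg i
      push_cast
      apply ne_of_lt
      nlinarith
    · -- `c_k, q_0, q_1`
      obtain rfl : i = k := by omega
      rw [show 2 * i + 1 + 1 = 2 * i + 2 + 0 by ring, show 2 * i + 1 + 2 = 2 * i + 2 + 1 by ring,
        vX_c hi, vY_c hi, vX_q, vY_q, vX_q, vY_q]
      have : (i : ℝ) ^ 2 < bB i := by unfold bB; linarith
      push_cast
      apply ne_of_lt
      nlinarith
  · -- `t_i, c_(i+1), next`
    have hm := mS_pos (s := s) hi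
    rcases Nat.lt_or_ge (i + 1) k with hik | hik
    · rw [show 2 * i + 2 + 1 = 2 * (i + 1) + 1 by ring,
        show 2 * i + 2 + 2 = 2 * (i + 1) + 2 by ring,
        vX_t hi, vY_t hi, vX_c (by omega), vY_c (by omega), vX_t hik, vY_t hik]
      have hm' := mS_pos (s := s) hik
      have hi0 : (0 : ℝ) ≤ i := Nat.cast_nonneg i
      push_cast
      apply ne_of_gt
      nlinarith
    · obtain rfl : k = i + 1 := by omega
      rw [show 2 * i + 2 + 1 = 2 * (i + 1) + 1 by ring,
        show 2 * i + 2 + 2 = 2 * (i + 1) + 2 + 0 by ring,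
        vX_t hi, vY_t hi, vX_c (by omega), vY_c (by omega), vX_q, vY_q]
      have h1 := mS_gt (s := s) hi (Nat.zero_le (s i))
      push_cast at h1 ⊢
      apply ne_of_gt
      nlinarith
  · -- three points of the arc
    rw [show 2 * k + 2 + i + 1 = 2 * k + 2 + (i + 1) by ring,
      show 2 * k + 2 + i + 2 = 2 * k + 2 + (i + 2) by ring,
      vX_q, vY_q, vX_q, vY_q, vX_q, vY_q]
    push_cast
    apply ne_of_lt
    nlinarith

theorem noStraight (hs : ∀ i, i < k → s i < M) (hM : 1 ≤ M) (hk : 1 ≤ k) :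
    NoStraightAngle (vv k M s) := by
  have hmono := monoPoly hs hM
  intro i
  have hi := i.2
  have hv : ∀ j : Fin (2 * k + 2 + M + 1), vv k M s j = (vX k M j, vY k M s j) := fun j => rfl
  apply not_collinear
  rw [hv, hv, hv]
  rcases Nat.lt_or_ge ((i : ℕ) + 2) (2 * k + 2 + M + 1) with h | h
  · have e1 : ((finRotate (2 * k + 2 + M + 1) i : Fin _) : ℕ) = (i : ℕ) + 1 := by
      rw [coe_finRotate_of_ne_last]
      intro hc
      rw [hc, Fin.val_last] at h
      omega
    have e2 : ((finRotate (2 * k + 2 + M + 1) (finRotate _ i) : Fin _) : ℕ) = (i : ℕ) + 2 := by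
      rw [coe_finRotate_of_ne_last, e1]
      intro hc
      have := congrArg Fin.val hc
      rw [e1, Fin.val_last] at this
      omega
    rw [e1, e2]
    exact turn hk (by omega)
  · rcases Nat.lt_or_ge ((i : ℕ) + 1) (2 * k + 2 + M + 1) with h1 | h1
    · have hi2 : (i : ℕ) = 2 * k + 1 + M := by omega
      have e1 : ((finRotate (2 * k + 2 + M + 1) i : Fin _) : ℕ) = 2 * k + 2 + M := by
        rw [coe_finRotate_of_ne_last]
        · omega
        · intro hc
          rw [hc, Fin.val_last] at hi2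
          omega
      have e2 : (finRotate (2 * k + 2 + M + 1) (finRotate _ i) : Fin _) = 0 := by
        have : finRotate (2 * k + 2 + M + 1) i = Fin.last _ := Fin.ext (by rw [e1]; rfl)
        rw [this, finRotate_last]
      rw [e2, e1, hi2]
      have h2 := hmono.above (2 * k + 1 + M) (by omega) (by omega)
      have h3 := hmono.base
      have h4 := hmono.lt (i := 0) (j := 2 * k + 2 + M) (by omega) le_rfl
      simp only [Fin.val_zero]
      rw [h3]
      apply ne_of_lt
      have e3 : (vX k M (2 * k + 2 + M) - vX k M (2 * k + 1 + M)) *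
          (vY k M s 0 - vY k M s (2 * k + 1 + M)) -
          (vX k M 0 - vX k M (2 * k + 1 + M)) *
          (vY k M s 0 - vY k M s (2 * k + 1 + M)) =
          -((vX k M (2 * k + 2 + M) - vX k M 0) *
            (vY k M s (2 * k + 1 + M) - vY k M s 0)) := by ring
      rw [e3]
      have : 0 < (vX k M (2 * k + 2 + M) - vX k M 0) *
            (vY k M s (2 * k + 1 + M) - vY k M s 0) := mul_pos (by linarith) (by linarith)
      linarith
    · have hi2 : i = Fin.last _ := Fin.ext (by rw [Fin.val_last]; omega)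
      have e1 : (finRotate (2 * k + 2 + M + 1) i : Fin _) = 0 := by
        rw [hi2, finRotate_last]
      have e2 : ((finRotate (2 * k + 2 + M + 1) 0 : Fin _) : ℕ) = 1 := by
        rw [coe_finRotate_of_ne_last]
        · simp
        · intro hc
          have := congrArg Fin.val hc
          rw [Fin.val_last, Fin.val_zero] at this
          omega
      rw [e1, e2, hi2, Fin.val_last]
      have h2 := hmono.above 1 (by omega) (by omega)
      have h3 := hmono.base
      have h4 := hmono.lt (i := 0) (j := 2 * k + 2 + M) (by omega) le_rfl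
      simp only [Fin.val_zero]
      rw [h3]
      apply ne_of_lt
      have e3 : (vX k M 0 - vX k M (2 * k + 2 + M)) * (vY k M s 1 - vY k M s 0) -
          (vX k M 1 - vX k M (2 * k + 2 + M)) * (vY k M s 0 - vY k M s 0) =
          -((vX k M (2 * k + 2 + M) - vX k M 0) * (vY k M s 1 - vY k M s 0)) := by ring
      rw [e3]
      have : 0 < (vX k M (2 * k + 2 + M) - vX k M 0) * (vY k M s 1 - vY k M s 0) :=
        mul_pos (by linarith) (by linarith)
      linarith

/-- The lower bound. -/
theorem lower (hk : 4 ≤ k) (hM : 1 ≤ M) : M ^ (k - 1) ≤ Nstrict (2 * k + 2 + M + 1) := by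
  classical
  let ext : (Fin (k - 1) → Fin M) → ℕ → ℕ :=
    fun σ i => if h : i < k - 1 then (σ ⟨i, h⟩ : ℕ) else 0
  have hext : ∀ σ, ∀ i, i < k → ext σ i < M := by
    intro σ i _
    by_cases h : i < k - 1
    · simp only [ext, h, dif_pos]
      exact (σ ⟨i, h⟩).2
    · simp only [ext, h, dif_neg, not_false_iff]
      omega
  let F : (Fin (k - 1) → Fin M) → Quotient (isoSetoid (2 * k + 2 + M + 1)) :=
    fun σ => Quotient.mk _ (visGraph (vv k M (ext σ)) (rr k M (ext σ)))
  have hF : Function.Injective F := by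
    intro σ σ' h
    obtain ⟨φ⟩ : Nonempty (visGraph (vv k M (ext σ)) (rr k M (ext σ)) ≃g
      visGraph (vv k M (ext σ')) (rr k M (ext σ'))) := Quotient.exact h
    have h1 := rigid' hk hM (hext σ) (hext σ') φ
    funext ⟨i, hi⟩
    have h2 := h1 i (by omega)
    simp only [ext, hi, dif_pos] at h2
    exact Fin.ext h2
  have hmem : Set.range F ⊆ visClassesStrict (2 * k + 2 + M + 1) := by
    rintro q ⟨σ, rfl⟩
    exact ⟨_, _, (monoPoly (hext σ) hM).isSimplePolygon, noStraight (hext σ) hM (by omega), rfl⟩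
  have h1 : (Set.range F).ncard = M ^ (k - 1) := by
    rw [← Set.image_univ, Set.ncard_image_of_injective _ hF, Set.ncard_univ]
    simp
  rw [← h1]
  exact Set.ncard_le_ncard hmem (Set.toFinite _)

end Pool.Agent.L5helper43.Vis
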