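import Pool.Agent.H595K.Mono

/-!
# Visibility of vertices in an x-monotone polygon over a horizontal base edge
-/

namespace Pool.Agent.L5helper43.Vis

open Set Vis124 Pool.Agent.H595K

variable {X Y : ℕ → ℝ} {K : ℕ}

theorem base_le (h : MonoPoly X Y K) {i : ℕ} (hi : i ≤ K) : Y 0 ≤ Y i := by
  rcases Nat.eq_zero_or_pos i with rfl | h0
  · exact le_refl _
  · rcases eq_or_lt_of_le hi with rfl | h1
    · exact h.base.ge
    · exact (h.above i h0 h1).le

theorem visible_of (h : MonoPoly X Y K) {a b : ℕ} (hab : a < b) (hb : b ≤ K)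
    (hm : ∀ m, a < m → m < b → (Y b - Y a) * (X m - X a) ≤ (Y m - Y a) * (X b - X a)) :
    segment ℝ (X a, Y a) (X b, Y b) ⊆ reg X Y K := by
  have hX := h.lt hab hb
  have hD : 0 < X b - X a := by linarith
  rw [segment_graph hX]
  rintro p ⟨⟨h1, h2⟩, h3⟩
  obtain ⟨s, hs⟩ : ∃ s, s = (Y b - Y a) / (X b - X a) := ⟨_, rfl⟩
  rw [← hs] at h3
  have hsD : s * (X b - X a) = Y b - Y a := by rw [hs]; field_simp
  have hL : ∀ m, a ≤ m → m ≤ b → Y a + s * (X m - X a) ≤ Y m := by
    intro m h4 h5
    rcases eq_or_lt_of_le h4 with rfl | h4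
    · simp
    rcases eq_or_lt_of_le h5 with rfl | h5
    · linarith
    have h6 := hm m h4 h5
    rw [← hsD] at h6
    have h7 : s * (X m - X a) * (X b - X a) ≤ (Y m - Y a) * (X b - X a) := by linarith
    have := le_of_mul_le_mul_right h7 hD
    linarith
  have hxa : X 0 ≤ X a := h.le (Nat.zero_le _) (by omega)
  have hxb : X b ≤ X K := h.le hb le_rfl
  refine ⟨⟨by linarith, by linarith⟩, ?_, ?_⟩
  · -- the base line
    have ha := base_le h (i := a) (by omega)
    have hbb := base_le h hb
    rw [h3]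
    have h8 : (X b - X a) * (Y a + s * (p.1 - X a)) =
        (X b - p.1) * Y a + (p.1 - X a) * Y b := by
      have : Y b = Y a + s * (X b - X a) := by linarith
      rw [this]; ring
    have h9 : (X b - X a) * Y 0 ≤ (X b - X a) * (Y a + s * (p.1 - X a)) := by
      rw [h8]
      nlinarith [mul_le_mul_of_nonneg_left ha (sub_nonneg.2 h2),
        mul_le_mul_of_nonneg_left hbb (sub_nonneg.2 h1)]
    exact le_of_mul_le_mul_left h9 hD
  · obtain ⟨m, hmK, h4, h5, h6⟩ := h.exists_edge (hxa.trans h1) (h2.trans hxb)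
    -- the edge starts at or after `a`
    have ham : a ≤ m := by
      by_contra hc
      push Not at hc
      have h7 : X (m + 1) ≤ X a := h.le (by omega) (by omega)
      rcases h6 with h6 | h6
      · omega
      · linarith
    rcases lt_or_ge m b with hmb | hmb
    · rw [h.hh_eq hmK h4 h5, h3]
      have hw : 0 < X (m + 1) - X m := by
        have := h.mono m hmK
        linarith
      have e1 := hL m ham hmb.le
      have e2 := hL (m + 1) (by omega) (by omega)
      have e3 : (X (m + 1) - X m) * (Y m + sl X Y m * (p.1 - X m)) =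
          (X (m + 1) - p.1) * Y m + (p.1 - X m) * Y (m + 1) := by
        unfold sl
        field_simp
        ring
      have e4 : (X (m + 1) - X m) * (Y a + s * (p.1 - X a)) ≤
          (X (m + 1) - X m) * (Y m + sl X Y m * (p.1 - X m)) := by
        rw [e3]
        have f1 := mul_le_mul_of_nonneg_left e1 (sub_nonneg.2 h5)
        have f2 := mul_le_mul_of_nonneg_left e2 (sub_nonneg.2 h4)
        nlinarith
      exact le_of_mul_le_mul_left e4 hw
    · have h7 : X b ≤ X m := h.le hmb hmK.le
      have h8 : p.1 = X b := by linarith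
      have h9 : hh X Y K p.1 = Y b := by rw [h8]; exact h.hh_vertex hb
      rw [h9, h3, h8]
      linarith

theorem not_visible_of (h : MonoPoly X Y K) {a b m : ℕ} (ham : a < m) (hmb : m < b) (hb : b ≤ K)
    (hm : (Y m - Y a) * (X b - X a) < (Y b - Y a) * (X m - X a)) :
    ¬ segment ℝ (X a, Y a) (X b, Y b) ⊆ reg X Y K := by
  intro hsub
  have hX := h.lt (ham.trans hmb) hb
  have hX1 := h.lt ham (by omega)
  have hX2 := h.lt hmb hb
  have hD : 0 < X b - X a := by linarith
  have hmem : (X m, Y a + (Y b - Y a) / (X b - X a) * (X m - X a)) ∈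
      segment ℝ (X a, Y a) (X b, Y b) := by
    rw [segment_graph hX]
    exact ⟨⟨hX1.le, hX2.le⟩, rfl⟩
  have h1 := (hsub hmem).2.2
  simp only at h1
  rw [h.hh_vertex (by omega)] at h1
  have h2 : (Y b - Y a) / (X b - X a) * (X m - X a) ≤ Y m - Y a := by linarith
  have h3 := mul_le_mul_of_nonneg_right h2 hD.le
  have h4 : (Y b - Y a) / (X b - X a) * (X m - X a) * (X b - X a) =
      (Y b - Y a) * (X m - X a) := by
    field_simp
  linarith

theorem visible_succ (h : MonoPoly X Y K) {a : ℕ} (ha : a < K) :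
    segment ℝ (X a, Y a) (X (a + 1), Y (a + 1)) ⊆ reg X Y K :=
  visible_of h (Nat.lt_succ_self a) ha (fun m h1 h2 => by omega)

end Pool.Agent.L5helper43.Vis
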