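import Pool.Agent.H124R2.Vis.Exit
import Pool.Agent.H247R2.Warren

/-!
# Upper bound for the number of visibility graphs of simple polygons

The labelled visibility graph is determined by the side of the interior and by the signs of the
orientations and scalar products of all triples of vertices.
-/

namespace Pool.Agent.L5helper43.Vis

open Vis124 Finset MvPolynomial

variable {n : ℕ}

/-- The triples. -/
abbrev Tri (n : ℕ) : Type := Fin n × Fin n × Fin n

/-- first coordinate of the vertex `i` -/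
noncomputable def px (i : Fin n) : MvPolynomial (Fin n × Bool) ℝ := X (i, false)

/-- second coordinate of the vertex `i` -/
noncomputable def py (i : Fin n) : MvPolynomial (Fin n × Bool) ℝ := X (i, true)

/-- The polynomials: orientations and scalar products. -/
noncomputable def pol : Tri n ⊕ Tri n → MvPolynomial (Fin n × Bool) ℝ
  | Sum.inl t => (px t.2.1 - px t.1) * (py t.2.2 - py t.1) -
      (py t.2.1 - py t.1) * (px t.2.2 - px t.1)
  | Sum.inr t => (px t.2.1 - px t.1) * (px t.2.2 - px t.1) +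
      (py t.2.1 - py t.1) * (py t.2.2 - py t.1)

theorem degree_diff (i j : Fin n × Bool) :
    (X i - X j : MvPolynomial (Fin n × Bool) ℝ).totalDegree ≤ 1 := by
  refine (totalDegree_sub _ _).trans ?_
  simp [totalDegree_X]

theorem degree_pol (t : Tri n ⊕ Tri n) : (pol t).totalDegree ≤ 2 := by
  rcases t with t | t
  · refine (totalDegree_sub _ _).trans (max_le ?_ ?_)
    · exact (totalDegree_mul _ _).trans (add_le_add (degree_diff _ _) (degree_diff _ _))
    · exact (totalDegree_mul _ _).trans (add_le_add (degree_diff _ _) (degree_diff _ _))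
  · refine (totalDegree_add _ _).trans (max_le ?_ ?_)
    · exact (totalDegree_mul _ _).trans (add_le_add (degree_diff _ _) (degree_diff _ _))
    · exact (totalDegree_mul _ _).trans (add_le_add (degree_diff _ _) (degree_diff _ _))

/-- coordinates as one vector -/
def crd (v : Fin n → ℝ × ℝ) (a : Fin n × Bool) : ℝ := if a.2 then (v a.1).2 else (v a.1).1

theorem eval_inl (v : Fin n → ℝ × ℝ) (i j k : Fin n) :
    eval (crd v) (pol (Sum.inl (i, j, k))) = ori (v i) (v j) (v k) := by
  simp [pol, px, py, crd, ori, cr]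

theorem eval_inr (v : Fin n → ℝ × ℝ) (i j k : Fin n) :
    eval (crd v) (pol (Sum.inr (i, j, k))) = dotp (v i) (v j) (v k) := by
  simp [pol, px, py, crd, dotp]

/-- the sign vector -/
noncomputable def sgv (v : Fin n → ℝ × ℝ) (t : Tri n ⊕ Tri n) : SignType :=
  SignType.sign (eval (crd v) (pol t))

theorem sign_pos_iff {a b : ℝ} (h : SignType.sign a = SignType.sign b) : 0 < a ↔ 0 < b := by
  rw [← sign_eq_one_iff, ← sign_eq_one_iff, h]

theorem sign_neg_iff {a b : ℝ} (h : SignType.sign a = SignType.sign b) : a < 0 ↔ b < 0 := by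
  rw [← sign_eq_neg_one_iff, ← sign_eq_neg_one_iff, h]

theorem sign_zero_iff {a b : ℝ} (h : SignType.sign a = SignType.sign b) : a = 0 ↔ b = 0 := by
  rw [← sign_eq_zero_iff, ← sign_eq_zero_iff (a := b), h]

theorem sign_mul_congr {a b c d : ℝ} (h : SignType.sign a = SignType.sign b)
    (h' : SignType.sign c = SignType.sign d) : SignType.sign (a * c) = SignType.sign (b * d) := by
  rw [sign_mul, sign_mul, h, h']

section
variable {v v' : Fin n → ℝ × ℝ} (hs : sgv v = sgv v')
include hs

theorem ori_sign (i j k : Fin n) :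
    SignType.sign (ori (v i) (v j) (v k)) = SignType.sign (ori (v' i) (v' j) (v' k)) := by
  have := congrFun hs (Sum.inl (i, j, k))
  rwa [sgv, sgv, eval_inl, eval_inl] at this

theorem dotp_sign (i j k : Fin n) :
    SignType.sign (dotp (v i) (v j) (v k)) = SignType.sign (dotp (v' i) (v' j) (v' k)) := by
  have := congrFun hs (Sum.inr (i, j, k))
  rwa [sgv, sgv, eval_inr, eval_inr] at this

theorem sec_iff (σ : ℝ) (j k : Fin n) :
    v j - v k ∈ Sec σ (wd v k) (ud v k) ↔ v' j - v' k ∈ Sec σ (wd v' k) (ud v' k) := by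
  have h1 : SignType.sign (σ * ori (v k) (v (sc k)) (v (pd k))) =
      SignType.sign (σ * ori (v' k) (v' (sc k)) (v' (pd k))) :=
    sign_mul_congr rfl (ori_sign hs _ _ _)
  have h2 : SignType.sign (σ * ori (v k) (v (sc k)) (v j)) =
      SignType.sign (σ * ori (v' k) (v' (sc k)) (v' j)) :=
    sign_mul_congr rfl (ori_sign hs _ _ _)
  have h3 : SignType.sign (σ * ori (v k) (v j) (v (pd k))) =
      SignType.sign (σ * ori (v' k) (v' j) (v' (pd k))) :=
    sign_mul_congr rfl (ori_sign hs _ _ _)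
  have e : ∀ (w : Fin n → ℝ × ℝ), w j - w k ∈ Sec σ (wd w k) (ud w k) ↔
      (0 < σ * ori (w k) (w (sc k)) (w (pd k)) ∧ 0 < σ * ori (w k) (w (sc k)) (w j) ∧
        0 < σ * ori (w k) (w j) (w (pd k))) ∨
      (¬ 0 < σ * ori (w k) (w (sc k)) (w (pd k)) ∧ (0 < σ * ori (w k) (w (sc k)) (w j) ∨
        0 < σ * ori (w k) (w j) (w (pd k)))) := by
    intro w
    simp only [not_lt]
    rfl
  rw [e v, e v', sign_pos_iff h1, sign_pos_iff h2, sign_pos_iff h3]

theorem vexit_iff (σ : ℝ) (i j k : Fin n) : VExit σ v i j k ↔ VExit σ v' i j k := by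
  unfold VExit
  rw [sign_zero_iff (ori_sign hs i j k), ← not_lt, ← not_lt,
    sign_pos_iff (dotp_sign hs k i j), sec_iff hs (-σ) j k]

theorem eexit_iff (σ : ℝ) (i j l : Fin n) : EExit σ v i j l ↔ EExit σ v' i j l := by
  unfold EExit
  rw [sign_pos_iff (sign_mul_congr (rfl : SignType.sign σ = SignType.sign σ)
      (ori_sign hs l (sc l) i)),
    sign_neg_iff (sign_mul_congr (rfl : SignType.sign σ = SignType.sign σ)
      (ori_sign hs l (sc l) j)),
    sign_neg_iff (sign_mul_congr (ori_sign hs i j l) (ori_sign hs i j (sc l)))]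

end

/-- The side of the interior. -/
def Sided (v : Fin n → ℝ × ℝ) (P : Set (ℝ × ℝ)) (σ : ℝ) : Prop :=
  (∀ k, Ev v (interior P) σ k) ∧ (∀ k, Ev v Pᶜ (-σ) k)

theorem visible_iff {v : Fin n → ℝ × ℝ} {P : Set (ℝ × ℝ)} (h : IsSimplePolygon v P) {σ : ℝ}
    (hσ : σ = 1 ∨ σ = -1) (hs : Sided v P σ) {i j : Fin n} (hij : i ≠ j) :
    segment ℝ (v i) (v j) ⊆ P ↔ ¬ ((∃ k, VExit σ v i j k) ∨ (∃ l, EExit σ v i j l)) := by
  constructor
  · intro h1 h2
    exact not_visible_of_exit h hσ hs.2 hij h2 h1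
  · intro h1
    by_contra h2
    exact h1 (exit_of_not_visible h hσ hs.1 hs.2 hij h2)

theorem visGraph_congr {v v' : Fin n → ℝ × ℝ} {P P' : Set (ℝ × ℝ)} (h : IsSimplePolygon v P)
    (h' : IsSimplePolygon v' P') {σ : ℝ} (hσ : σ = 1 ∨ σ = -1) (hs : Sided v P σ)
    (hs' : Sided v' P' σ) (hv : sgv v = sgv v') : visGraph v P = visGraph v' P' := by
  ext i j
  show (i ≠ j ∧ segment ℝ (v i) (v j) ⊆ P) ↔ (i ≠ j ∧ segment ℝ (v' i) (v' j) ⊆ P')
  constructor
  · rintro ⟨hij, h1⟩
    refine ⟨hij, ?_⟩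
    rw [visible_iff h hσ hs hij] at h1
    rw [visible_iff h' hσ hs' hij]
    simpa only [vexit_iff hv, eexit_iff hv] using h1
  · rintro ⟨hij, h1⟩
    refine ⟨hij, ?_⟩
    rw [visible_iff h' hσ hs' hij] at h1
    rw [visible_iff h hσ hs hij]
    simpa only [vexit_iff hv, eexit_iff hv] using h1

/-- the labelled visibility graphs -/
def labelled (n : ℕ) : Set (SimpleGraph (Fin n)) :=
  {G | ∃ (v : Fin n → ℝ × ℝ) (P : Set (ℝ × ℝ)), IsSimplePolygon v P ∧ G = visGraph v P}

theorem N_le_labelled (n : ℕ) : N n ≤ (labelled n).ncard := by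
  have h : visClasses n = Quotient.mk (isoSetoid n) '' (labelled n) := by
    ext q
    constructor
    · rintro ⟨v, P, h, rfl⟩
      exact ⟨_, ⟨v, P, h, rfl⟩, rfl⟩
    · rintro ⟨G, ⟨v, P, h, rfl⟩, rfl⟩
      exact ⟨v, P, h, rfl⟩
  rw [N, h]
  exact Set.ncard_image_le (Set.toFinite _)

theorem labelled_le (n : ℕ) : (labelled n).ncard ≤ 2 * (16 * n ^ 3 + 1) ^ (2 * n) := by
  classical
  -- the realizable sign vectors
  let S : Finset (Tri n ⊕ Tri n → SignType) :=
    univ.filter (fun s => ∃ x : Fin n × Bool → ℝ, ∀ j, SignType.sign (eval x (pol j)) = s j)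
  have hS : S.card ≤ (16 * n ^ 3 + 1) ^ (2 * n) := by
    have h := Pool.Agent.H247R2.Warren.sign_count (pol (n := n)) 2 degree_pol S (by
      intro s hs
      exact (Finset.mem_filter.1 hs).2)
    refine h.trans (le_of_eq ?_)
    simp only [Fintype.card_sum, Fintype.card_prod, Fintype.card_fin, Fintype.card_bool]
    congr 1
    · ring
    · ring
  have hch : ∀ G : labelled n, ∃ (σ : Bool) (v : Fin n → ℝ × ℝ) (P : Set (ℝ × ℝ)),
      IsSimplePolygon v P ∧ (G : SimpleGraph (Fin n)) = visGraph v P ∧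
      Sided v P (if σ then 1 else -1) := by
    rintro ⟨G, v, P, h, rfl⟩
    obtain ⟨σ, hσ, h1, h2⟩ := oriented h
    rcases hσ with rfl | rfl
    · exact ⟨true, v, P, h, rfl, h1, h2⟩
    · exact ⟨false, v, P, h, rfl, h1, h2⟩
  choose σ v P hP hG hsd using hch
  have hinj : Function.Injective (fun G : labelled n => (σ G, sgv (v G))) := by
    intro G G' hGG
    simp only [Prod.mk.injEq] at hGG
    apply Subtype.ext
    rw [hG G, hG G']
    have h1 := hsd G
    rw [hGG.1] at h1
    refine visGraph_congr (hP G) (hP G') ?_ h1 (hsd G') hGG.2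
    cases σ G' <;> simp
  have hfin : Set.Finite (labelled n) := Set.toFinite _
  have : Fintype (labelled n) := hfin.fintype
  have hcard : (labelled n).ncard = Fintype.card (labelled n) := by
    rw [← Nat.card_coe_set_eq, Nat.card_eq_fintype_card]
  rw [hcard]
  have h2 : Fintype.card (labelled n) ≤ ((univ : Finset Bool) ×ˢ S).card := by
    rw [← Finset.card_univ]
    refine Finset.card_le_card_of_injOn (fun G : labelled n => (σ G, sgv (v G))) ?_ ?_
    · intro G _
      refine Finset.mem_coe.2 (Finset.mem_product.2 ⟨Finset.mem_univ _, ?_⟩)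
      exact Finset.mem_filter.2 ⟨Finset.mem_univ _, crd (v G), fun j => rfl⟩
    · exact hinj.injOn
  refine h2.trans ?_
  rw [Finset.card_product, Finset.card_univ, Fintype.card_bool]
  exact Nat.mul_le_mul_left 2 hS

theorem N_le (n : ℕ) : N n ≤ 2 * (16 * n ^ 3 + 1) ^ (2 * n) :=
  (N_le_labelled n).trans (labelled_le n)

end Pool.Agent.L5helper43.Vis
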